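import Mathlib

namespace Pool.Agent.Results.MP_a5d893_al.NewtonFails

/-- The minor `A[α, β]`; increasing index sequences of length `k` in `{1, …, n}` are order
embeddings `Fin k ↪o Fin n`. -/
noncomputable def minor {n k : ℕ} (A : Matrix (Fin n) (Fin n) ℝ) (α β : Fin k ↪o Fin n) : ℝ :=
  (A.submatrix α β).det

/-- The principal submatrix `A(α)`. -/
def psub {n k : ℕ} (A : Matrix (Fin n) (Fin n) ℝ) (α : Fin k ↪o Fin n) :
    Matrix (Fin k) (Fin k) ℝ :=
  A.submatrix α α

/-- `A[α, β]` is almost principal: `#α - #(α ∩ β) = 1`. -/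
def AlmostPrincipal {n k : ℕ} (α β : Fin k ↪o Fin n) : Prop :=
  (Finset.univ.image α ∩ Finset.univ.image β).card + 1 = k

/-- All principal minors are positive. -/
def IsPMatrix {n : ℕ} (A : Matrix (Fin n) (Fin n) ℝ) : Prop :=
  ∀ (k : ℕ) (α : Fin k ↪o Fin n), 0 < minor A α α

/-- Weak sign symmetry. -/
def WeaklySignSymmetric {n : ℕ} (A : Matrix (Fin n) (Fin n) ℝ) : Prop :=
  ∀ (k : ℕ) (α β : Fin k ↪o Fin n), AlmostPrincipal α β → 0 ≤ minor A α β * minor A β α

/-- GKK matrices. -/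
def IsGKK {n : ℕ} (A : Matrix (Fin n) (Fin n) ℝ) : Prop :=
  IsPMatrix A ∧ WeaklySignSymmetric A

/-- `σ(M) ∩ ℝ`, where `σ(M) ⊆ ℂ` is the set of complex eigenvalues of the real matrix `M`. -/
def realSpec {k : ℕ} (M : Matrix (Fin k) (Fin k) ℝ) : Set ℝ :=
  {x | (x : ℂ) ∈ spectrum ℂ (M.map (algebraMap ℝ ℂ))}

/-- `ω`-matrices: `l(A(α)) ≤ l(A(β)) < ∞` for all nonempty `β ⊆ α`, where `l(M)` is the least
element of `σ(M) ∩ ℝ`. -/
def IsOmega {n : ℕ} (A : Matrix (Fin n) (Fin n) ℝ) : Prop :=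
  ∀ (k m : ℕ) (α : Fin k ↪o Fin n) (β : Fin m ↪o Fin n), 0 < m →
    Set.range β ⊆ Set.range α →
    ∃ x y : ℝ, IsLeast (realSpec (psub A α)) x ∧ IsLeast (realSpec (psub A β)) y ∧ x ≤ y

/-- `τ`-matrices: `ω`-matrices with `l(A) ≥ 0`. -/
def IsTau {n : ℕ} (A : Matrix (Fin n) (Fin n) ℝ) : Prop :=
  IsOmega A ∧ ∃ x : ℝ, IsLeast (realSpec A) x ∧ 0 ≤ x

/-- `c_j`, the average of the principal minors of order `j`. -/
noncomputable def cc {n : ℕ} (A : Matrix (Fin n) (Fin n) ℝ) (j : ℕ) : ℝ :=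
  (∑ α ∈ Finset.powersetCard j (Finset.univ : Finset (Fin n)),
    (A.submatrix (Subtype.val : α → Fin n) (Subtype.val : α → Fin n)).det) / (n.choose j : ℝ)

/-! ### the example -/

/-- The counterexample, with integer entries. -/
def AZ : Matrix (Fin 5) (Fin 5) ℤ :=
  !![20, 19, 19, 19, 20;
     0, 20, 19, 19, 20;
     0, 0, 20, 19, 20;
     0, 0, 0, 20, 20;
     19, 19, 19, 19, 20]

/-- The counterexample. -/
def AR : Matrix (Fin 5) (Fin 5) ℝ := AZ.map (Int.cast : ℤ → ℝ)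

/-- The entries of `AZ` as a plain function. -/
def E (a b : Fin 5) : ℤ := AZ a b

/-- Laplace expansion, for kernel computation. -/
def ldet : (k : ℕ) → (Fin k → Fin k → ℤ) → ℤ
  | 0, _ => 1
  | k + 1, M => ∑ j : Fin (k + 1), (-1) ^ (j : ℕ) * M 0 j * ldet k (fun i l => M i.succ (j.succAbove l))

lemma ldet_eq (k : ℕ) (M : Fin k → Fin k → ℤ) : ldet k M = Matrix.det (Matrix.of M) := by
  induction k with
  | zero => simp [ldet]
  | succ k ih =>
    rw [Matrix.det_succ_row_zero, ldet]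
    refine Finset.sum_congr rfl fun j _ => ?_
    rw [ih]
    rfl

lemma minor_AR {k : ℕ} (f g : Fin k ↪o Fin 5) :
    minor AR f g = ((ldet k (fun i j => E (f i) (g j)) : ℤ) : ℝ) := by
  unfold minor AR
  rw [ldet_eq]
  have := Int.cast_det (R := ℝ) (Matrix.of fun i j => E (f i) (g j))
  rw [this]
  rfl

lemma upper_entry' : ∀ a b : Fin 5, a ≠ 4 → b ≠ 4 →
    E a b = (if a = b then 20 else if a < b then 19 else 0 : ℤ) := by decide

lemma upper_entry (a b : Fin 5) (ha : a ≠ 4) (hb : b ≠ 4) :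
    AZ a b = (if a = b then 20 else if a < b then 19 else 0 : ℤ) := upper_entry' a b ha hb

lemma col_entry : ∀ a : Fin 5, AZ a 4 = 20 := by decide

lemma row_entry : ∀ b : Fin 5, b ≠ 4 → AZ 4 b = 19 := by decide

/-- the model for principal submatrices containing the last index -/
def B (r : ℕ) : Matrix (Fin (r + 1)) (Fin (r + 1)) ℝ := fun i j =>
  if j = Fin.last r then 20 else if i = Fin.last r then 19 else
    if i = j then 20 else if i < j then 19 else 0

lemma psub_no {k : ℕ} (f : Fin k ↪o Fin 5) (hf : ∀ i, f i ≠ 4) (z : ℝ) :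
    (z • (1 : Matrix (Fin k) (Fin k) ℝ) - psub AR f).det = (z - 20) ^ k := by
  rw [Matrix.det_of_isUpperTriangular]
  · have : ∀ i : Fin k, (z • (1 : Matrix (Fin k) (Fin k) ℝ) - psub AR f) i i = z - 20 := by
      intro i
      simp [psub, AR, upper_entry _ _ (hf i) (hf i)]
    simp [this]
  · intro i j hij
    have hij' : j < i := hij
    have h1 : f j < f i := f.strictMono hij'
    simp [psub, AR, upper_entry _ _ (hf i) (hf j), Matrix.one_apply, hij'.ne', h1.ne', h1.not_gt]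

lemma psub_yes {r : ℕ} (f : Fin (r + 1) ↪o Fin 5) (hf : f (Fin.last r) = 4) :
    psub AR f = B r := by
  have hne : ∀ i, i ≠ Fin.last r → f i ≠ 4 := by
    intro i hi h
    exact hi (f.injective (h.trans hf.symm))
  ext i j
  simp only [psub, AR, Matrix.submatrix_apply, Matrix.map_apply, B]
  by_cases hj : j = Fin.last r
  · subst hj
    rw [hf, col_entry]; simp
  · by_cases hi : i = Fin.last r
    · subst hi
      rw [hf, row_entry _ (hne _ hj)]; simp [hj]
    · rw [upper_entry _ _ (hne _ hi) (hne _ hj)]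
      simp only [hi, hj, if_false]
      by_cases hij : i = j
      · simp [hij]
      · have h1 : f i ≠ f j := fun h => hij (f.injective h)
        by_cases hlt : i < j
        · have h2 : f i < f j := f.strictMono hlt
          simp [hij, h1, hlt, h2]
        · have h2 : ¬ f i < f j := fun h => hlt (f.lt_iff_lt.1 h)
          simp [hij, h1, hlt, h2]

lemma detB0 (z : ℝ) : (z • (1 : Matrix _ _ ℝ) - B 0).det = z * (z - 20) ^ 0 - 20 * (z - 1) ^ 0 := by
  simp [B]

lemma detB1 (z : ℝ) : (z • (1 : Matrix _ _ ℝ) - B 1).det = z * (z - 20) ^ 1 - 20 * (z - 1) ^ 1 := by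
  rw [Matrix.det_fin_two]
  simp [B]
  ring

lemma detB2 (z : ℝ) : (z • (1 : Matrix _ _ ℝ) - B 2).det = z * (z - 20) ^ 2 - 20 * (z - 1) ^ 2 := by
  have : (z • (1 : Matrix _ _ ℝ) - B 2)
      = !![z - 20, -19, -20; 0, z - 20, -20; -19, -19, z - 20] := by
    ext i j; fin_cases i <;> fin_cases j <;> simp [B, Fin.ext_iff]
  rw [this]
  simp [Matrix.det_succ_column_zero, Fin.sum_univ_succ]
  ring

lemma detB3 (z : ℝ) : (z • (1 : Matrix _ _ ℝ) - B 3).det = z * (z - 20) ^ 3 - 20 * (z - 1) ^ 3 := by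
  have : (z • (1 : Matrix _ _ ℝ) - B 3)
      = !![z - 20, -19, -19, -20; 0, z - 20, -19, -20; 0, 0, z - 20, -20;
          -19, -19, -19, z - 20] := by
    ext i j; fin_cases i <;> fin_cases j <;> simp [B, Fin.ext_iff]
  rw [this]
  simp [Matrix.det_succ_column_zero, Fin.sum_univ_succ, Fin.succAbove]
  ring

lemma detB4 (z : ℝ) : (z • (1 : Matrix _ _ ℝ) - B 4).det = z * (z - 20) ^ 4 - 20 * (z - 1) ^ 4 := by
  have : (z • (1 : Matrix _ _ ℝ) - B 4)
      = !![z - 20, -19, -19, -19, -20; 0, z - 20, -19, -19, -20; 0, 0, z - 20, -19, -20;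
          0, 0, 0, z - 20, -20; -19, -19, -19, -19, z - 20] := by
    ext i j; fin_cases i <;> fin_cases j <;> simp [B, Fin.ext_iff]
  rw [this]
  simp [Matrix.det_succ_column_zero, Fin.sum_univ_succ, Fin.succAbove]
  ring

lemma detB (r : ℕ) (hr : r ≤ 4) (z : ℝ) :
    (z • (1 : Matrix _ _ ℝ) - B r).det = z * (z - 20) ^ r - 20 * (z - 1) ^ r := by
  interval_cases r
  · exact detB0 z
  · exact detB1 z
  · exact detB2 z
  · exact detB3 z
  · exact detB4 z

lemma realSpec_iff {k : ℕ} (M : Matrix (Fin k) (Fin k) ℝ) (x : ℝ) :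
    x ∈ realSpec M ↔ (x • (1 : Matrix (Fin k) (Fin k) ℝ) - M).det = 0 := by
  unfold realSpec
  rw [Set.mem_ofPred_eq, spectrum.mem_iff, Matrix.isUnit_iff_isUnit_det, isUnit_iff_ne_zero,
    not_not]
  have h : algebraMap ℂ (Matrix (Fin k) (Fin k) ℂ) (x : ℂ) - M.map (algebraMap ℝ ℂ)
      = (x • (1 : Matrix (Fin k) (Fin k) ℝ) - M).map (algebraMap ℝ ℂ) := by
    ext i j
    by_cases hij : i = j
    · subst hij; simp [Matrix.algebraMap_matrix_apply]
    · simp [Matrix.algebraMap_matrix_apply, hij]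
  rw [h]
  have h2 := (RingHom.map_det (algebraMap ℝ ℂ) (x • (1 : Matrix (Fin k) (Fin k) ℝ) - M)).symm
  rw [RingHom.mapMatrix_apply] at h2
  rw [h2]
  simp

/-- the real eigenvalues, when the last index occurs and there are `r` other indices -/
def S (r : ℕ) : Set ℝ := {x | x * (x - 20) ^ r - 20 * (x - 1) ^ r = 0}

lemma le_card_of_emb {k : ℕ} (f : Fin k ↪o Fin 5) : k ≤ 5 := by
  have := Fintype.card_le_of_injective f f.injective
  simpa using this

lemma spec_yes {r : ℕ} (f : Fin (r + 1) ↪o Fin 5) (hf : f (Fin.last r) = 4) :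
    realSpec (psub AR f) = S r := by
  ext x
  rw [realSpec_iff, psub_yes f hf, detB r (by have := le_card_of_emb f; omega)]
  rfl

lemma spec_no {k : ℕ} (hk : 0 < k) (f : Fin k ↪o Fin 5) (hf : ∀ i, f i ≠ 4) :
    realSpec (psub AR f) = {20} := by
  ext x
  rw [realSpec_iff, psub_no f hf]
  simp only [Set.mem_singleton_iff]
  constructor
  · intro h
    have := pow_eq_zero_iff (hk.ne') |>.1 h
    linarith
  · rintro rfl
    simp [hk.ne']

lemma emb_cases {k : ℕ} (f : Fin k ↪o Fin 5) :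
    (∀ i, f i ≠ 4) ∨ ∃ r, ∃ h : k = r + 1, f (Fin.cast h.symm (Fin.last r)) = 4 := by
  by_cases h : ∀ i, f i ≠ 4
  · exact Or.inl h
  · right
    push Not at h
    obtain ⟨i, hi⟩ := h
    obtain ⟨r, rfl⟩ : ∃ r, k = r + 1 := ⟨k - 1, by have := i.2; omega⟩
    refine ⟨r, rfl, ?_⟩
    have h1 : f i ≤ f (Fin.last r) := f.monotone (Fin.le_last i)
    rw [hi] at h1
    simp only [Fin.cast_refl, id]
    exact le_antisymm (Fin.le_last (n := 4) _) h1

lemma S_iff {r : ℕ} {x : ℝ} : x ∈ S r ↔ 20 * (1 - x) ^ r - x * (20 - x) ^ r = 0 := by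
  have h1 : (x - 20) ^ r = (-1) ^ r * (20 - x) ^ r := by rw [← mul_pow]; ring
  have h2 : (x - 1) ^ r = (-1) ^ r * (1 - x) ^ r := by rw [← mul_pow]; ring
  have h3 : x ∈ S r ↔ x * (x - 20) ^ r - 20 * (x - 1) ^ r = 0 := Iff.rfl
  rw [h3, h1, h2]
  have h4 : ((-1 : ℝ)) ^ r ≠ 0 := pow_ne_zero _ (by norm_num)
  have h5 : x * ((-1) ^ r * (20 - x) ^ r) - 20 * ((-1) ^ r * (1 - x) ^ r)
      = -((-1) ^ r) * (20 * (1 - x) ^ r - x * (20 - x) ^ r) := by ring
  rw [h5]
  constructor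
  · intro h
    rcases mul_eq_zero.1 h with h | h
    · exact absurd (neg_eq_zero.1 h) h4
    · exact h
  · intro h; rw [h]; ring

lemma S_pos {r : ℕ} {x : ℝ} (hx : x ∈ S r) : 0 < x := by
  by_contra hcon
  push Not at hcon
  rw [S_iff] at hx
  have h1 : (0 : ℝ) < 20 * (1 - x) ^ r := by
    have : 0 < (1 - x) ^ r := pow_pos (by linarith) _
    linarith
  have h2 : x * (20 - x) ^ r ≤ 0 :=
    mul_nonpos_of_nonpos_of_nonneg hcon (pow_nonneg (by linarith) _)
  linarith

lemma g_cont (r : ℕ) : Continuous fun x : ℝ => 20 * (1 - x) ^ r - x * (20 - x) ^ r := by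
  fun_prop

lemma root_below (r : ℕ) (x : ℝ) (hx : 0 ≤ x) (hg : 20 * (1 - x) ^ r - x * (20 - x) ^ r ≤ 0) :
    ∃ y ∈ S r, y ≤ x := by
  have := intermediate_value_Icc' hx ((g_cont r).continuousOn)
  have h0 : (0 : ℝ) ∈ Set.Icc (20 * (1 - x) ^ r - x * (20 - x) ^ r)
      (20 * (1 - (0 : ℝ)) ^ r - 0 * (20 - 0) ^ r) := by
    constructor
    · exact hg
    · norm_num
  obtain ⟨y, hy, hy0⟩ := this h0
  exact ⟨y, S_iff.2 hy0, hy.2⟩

lemma exists_least (r : ℕ) (hr : 1 ≤ r) : ∃ x, IsLeast (S r) x ∧ x ≤ 1 := by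
  have hclosed : IsClosed (S r) := by
    have : S r = (fun x : ℝ => 20 * (1 - x) ^ r - x * (20 - x) ^ r) ⁻¹' {0} := by
      ext x; rw [S_iff]; rfl
    rw [this]
    exact IsClosed.preimage (g_cont r) isClosed_singleton
  have hcomp : IsCompact (Set.Icc (0 : ℝ) 1 ∩ S r) := isCompact_Icc.inter_right hclosed
  obtain ⟨y, hy, hy1⟩ := root_below r 1 (by norm_num) (by
    rw [sub_self, zero_pow (by omega)]
    have : (0 : ℝ) < (20 - 1) ^ r := pow_pos (by norm_num) _
    linarith)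
  have hne : (Set.Icc (0 : ℝ) 1 ∩ S r).Nonempty := ⟨y, ⟨(S_pos hy).le, hy1⟩, hy⟩
  obtain ⟨x, hx, hmin⟩ := hcomp.exists_isLeast hne
  refine ⟨x, ⟨hx.2, ?_⟩, hx.1.2⟩
  intro w hw
  by_cases hw1 : w ≤ 1
  · exact hmin ⟨⟨(S_pos hw).le, hw1⟩, hw⟩
  · exact hx.1.2.trans (not_le.1 hw1).le

lemma least_mono {r s : ℕ} (hrs : r ≤ s) {x y : ℝ} (hx : IsLeast (S r) x) (hx1 : x ≤ 1)
    (hy : IsLeast (S s) y) : y ≤ x := by
  have hx0 := S_pos hx.1
  obtain ⟨w, hw, hwx⟩ := root_below s x hx0.le (by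
    have h := S_iff.1 hx.1
    obtain ⟨t, rfl⟩ := Nat.exists_eq_add_of_le hrs
    rw [pow_add, pow_add]
    have h1 : (1 - x) ^ t ≤ (20 - x) ^ t := pow_le_pow_left₀ (by linarith) (by linarith) _
    have h2 : 0 ≤ x * (20 - x) ^ r := mul_nonneg hx0.le (pow_nonneg (by linarith) _)
    have h3 : 20 * (1 - x) ^ r = x * (20 - x) ^ r := by linarith
    have h4 : 20 * ((1 - x) ^ r * (1 - x) ^ t) - x * ((20 - x) ^ r * (20 - x) ^ t)
        = (x * (20 - x) ^ r) * ((1 - x) ^ t - (20 - x) ^ t) := by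
      rw [← mul_assoc, h3]; ring
    rw [h4]
    exact mul_nonpos_of_nonneg_of_nonpos h2 (by linarith))
  exact (hy.2 hw).trans hwx

lemma S_zero : S 0 = {20} := by
  ext x
  rw [S_iff]
  simp only [pow_zero, mul_one, Set.mem_singleton_iff]
  constructor <;> intro h <;> linarith

lemma isOmega_AR : IsOmega AR := by
  intro k m α β hm hsub
  have hk : 0 < k := by
    by_contra h
    have : k = 0 := by omega
    subst this
    obtain ⟨i, -⟩ := hsub ⟨⟨0, hm⟩, rfl⟩
    exact i.elim0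
  have least20 : IsLeast ({20} : Set ℝ) 20 := isLeast_singleton
  have caseβ : (realSpec (psub AR β) = {20}) ∨
      ∃ r, 1 ≤ r ∧ m = r + 1 ∧ realSpec (psub AR β) = S r ∧ ∃ i, β i = 4 := by
    rcases emb_cases β with h | ⟨r, h, h4⟩
    · exact Or.inl (spec_no hm β h)
    · subst h
      rcases Nat.eq_zero_or_pos r with h0 | h0
      · subst h0
        left
        rw [spec_yes β h4, S_zero]
      · right
        exact ⟨r, h0, rfl, spec_yes β h4, ⟨_, h4⟩⟩
  rcases emb_cases α with h | ⟨r, h, h4⟩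
  · -- `α` avoids the last index
    have hβ : ∀ i, β i ≠ 4 := by
      intro i hi
      obtain ⟨j, hj⟩ := hsub ⟨i, rfl⟩
      exact h j (hj.trans hi)
    refine ⟨20, 20, ?_, ?_, le_refl _⟩
    · rw [spec_no hk α h]; exact least20
    · rw [spec_no hm β hβ]; exact least20
  · subst h
    have hα := spec_yes α h4
    have hmk : m ≤ r + 1 := by
      have h1 : (Finset.univ.image β) ⊆ (Finset.univ.image α) := by
        intro a ha
        simp only [Finset.mem_image, Finset.mem_univ, true_and] at ha ⊢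
        exact hsub ha
      have h2 := Finset.card_le_card h1
      rw [Finset.card_image_of_injective _ β.injective,
        Finset.card_image_of_injective _ α.injective] at h2
      simpa using h2
    rcases Nat.eq_zero_or_pos r with h0 | h0
    · subst h0
      have hα' : realSpec (psub AR α) = {20} := by rw [hα, S_zero]
      rcases caseβ with h | ⟨s, hs, hms, -⟩
      · refine ⟨20, 20, ?_, ?_, le_refl _⟩
        · rw [hα']; exact least20
        · rw [h]; exact least20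
      · omega
    · obtain ⟨x, hx, hx1⟩ := exists_least r h0
      rcases caseβ with h | ⟨s, hs, hms, hS, -⟩
      · refine ⟨x, 20, ?_, ?_, by linarith⟩
        · rw [hα]; exact hx
        · rw [h]; exact least20
      · obtain ⟨y, hy, hy1⟩ := exists_least s hs
        refine ⟨x, y, ?_, ?_, ?_⟩
        · rw [hα]; exact hx
        · rw [hS]; exact hy
        · exact least_mono (by omega) hy hy1 hx

lemma isTau_AR : IsTau AR := by
  refine ⟨isOmega_AR, ?_⟩
  let f : Fin 5 ↪o Fin 5 := RelEmbedding.refl _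
  obtain ⟨x, hx, -⟩ := exists_least 4 (by norm_num)
  have h := spec_yes (r := 4) f rfl
  have h2 : psub AR f = AR := rfl
  rw [h2] at h
  refine ⟨x, ?_, (S_pos hx.1).le⟩
  rw [h]; exact hx

lemma minor_self {k : ℕ} (α : Fin k ↪o Fin 5) :
    ((∀ i, α i ≠ 4) → minor AR α α = 20 ^ k) ∧ ((∃ i, α i = 4) → minor AR α α = 20) := by
  have h0 : minor AR α α = (-1) ^ k * ((0 : ℝ) • (1 : Matrix (Fin k) (Fin k) ℝ) - psub AR α).det := by
    have : ((0 : ℝ) • (1 : Matrix (Fin k) (Fin k) ℝ) - psub AR α) = - psub AR α := by simp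
    rw [this, Matrix.det_neg, Fintype.card_fin, ← mul_assoc, ← mul_pow]
    simp [minor, psub]
  constructor
  · intro h
    rw [h0, psub_no α h, ← mul_pow]; norm_num
  · rintro ⟨i, hi⟩
    rcases emb_cases α with h | ⟨r, h, h4⟩
    · exact absurd hi (h i)
    · subst h
      rw [h0, psub_yes α h4, detB r (by have := le_card_of_emb α; omega)]
      have : (-1 : ℝ) ^ (r + 1) * (0 * (0 - 20) ^ r - 20 * (0 - 1) ^ r)
          = 20 * ((-1) * (-1)) ^ r := by rw [mul_pow]; ring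
      rw [this]; norm_num

lemma isP_AR : IsPMatrix AR := by
  intro k α
  by_cases h : ∀ i, α i ≠ 4
  · rw [(minor_self α).1 h]; positivity
  · push Not at h
    rw [(minor_self α).2 h]; norm_num

lemma wss2 : ∀ a0 a1 : Fin 5, a0 < a1 → ∀ b0 b1 : Fin 5, b0 < b1 →
    (Finset.univ.image ![a0, a1] ∩ Finset.univ.image ![b0, b1]).card + 1 = 2 →
    0 ≤ ldet 2 (fun i j => E (![a0, a1] i) (![b0, b1] j)) *
      ldet 2 (fun i j => E (![b0, b1] i) (![a0, a1] j)) := by
  decide +kernel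

lemma wss3 : ∀ a0 a1 : Fin 5, a0 < a1 → ∀ a2 : Fin 5, a1 < a2 →
    ∀ b0 b1 : Fin 5, b0 < b1 → ∀ b2 : Fin 5, b1 < b2 →
    (Finset.univ.image ![a0, a1, a2] ∩ Finset.univ.image ![b0, b1, b2]).card + 1 = 3 →
    0 ≤ ldet 3 (fun i j => E (![a0, a1, a2] i) (![b0, b1, b2] j)) *
      ldet 3 (fun i j => E (![b0, b1, b2] i) (![a0, a1, a2] j)) := by
  decide +kernel

lemma wss4 : ∀ a0 a1 : Fin 5, a0 < a1 → ∀ a2 : Fin 5, a1 < a2 → ∀ a3 : Fin 5, a2 < a3 →
    ∀ b0 b1 : Fin 5, b0 < b1 → ∀ b2 : Fin 5, b1 < b2 → ∀ b3 : Fin 5, b2 < b3 →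
    (Finset.univ.image ![a0, a1, a2, a3] ∩ Finset.univ.image ![b0, b1, b2, b3]).card + 1 = 4 →
    0 ≤ ldet 4 (fun i j => E (![a0, a1, a2, a3] i) (![b0, b1, b2, b3] j)) *
      ldet 4 (fun i j => E (![b0, b1, b2, b3] i) (![a0, a1, a2, a3] j)) := by
  decide +kernel

lemma E_nonneg : ∀ a b : Fin 5, 0 ≤ E a b := by decide

lemma wss_AR : WeaklySignSymmetric AR := by
  intro k α β hap
  unfold AlmostPrincipal at hap
  rw [minor_AR, minor_AR, ← Int.cast_mul]
  apply Int.cast_nonneg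
  have hk := le_card_of_emb α
  interval_cases k
  · simp at hap
  · have h : ∀ M : Fin 1 → Fin 1 → ℤ, ldet 1 M = M 0 0 := by
      intro M; simp [ldet]
    rw [h, h]
    exact mul_nonneg (E_nonneg _ _) (E_nonneg _ _)
  · have hα : (α : Fin 2 → Fin 5) = ![α 0, α 1] := by
      ext i; fin_cases i <;> rfl
    have hβ : (β : Fin 2 → Fin 5) = ![β 0, β 1] := by
      ext i; fin_cases i <;> rfl
    rw [hα, hβ] at hap
    have := wss2 (α 0) (α 1) (α.strictMono (by decide)) (β 0) (β 1)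
      (β.strictMono (by decide)) hap
    rw [← hα, ← hβ] at this
    exact this
  · have hα : (α : Fin 3 → Fin 5) = ![α 0, α 1, α 2] := by
      ext i; fin_cases i <;> rfl
    have hβ : (β : Fin 3 → Fin 5) = ![β 0, β 1, β 2] := by
      ext i; fin_cases i <;> rfl
    rw [hα, hβ] at hap
    have := wss3 (α 0) (α 1) (α.strictMono (by decide)) (α 2) (α.strictMono (by decide))
      (β 0) (β 1) (β.strictMono (by decide)) (β 2) (β.strictMono (by decide)) hap
    rw [← hα, ← hβ] at this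
    exact this
  · have hα : (α : Fin 4 → Fin 5) = ![α 0, α 1, α 2, α 3] := by
      ext i; fin_cases i <;> rfl
    have hβ : (β : Fin 4 → Fin 5) = ![β 0, β 1, β 2, β 3] := by
      ext i; fin_cases i <;> rfl
    rw [hα, hβ] at hap
    have := wss4 (α 0) (α 1) (α.strictMono (by decide)) (α 2) (α.strictMono (by decide))
      (α 3) (α.strictMono (by decide))
      (β 0) (β 1) (β.strictMono (by decide)) (β 2) (β.strictMono (by decide))
      (β 3) (β.strictMono (by decide)) hap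
    rw [← hα, ← hβ] at this
    exact this
  · exfalso
    have h1 : Finset.univ.image α = Finset.univ := by
      apply Finset.eq_univ_of_card
      rw [Finset.card_image_of_injective _ α.injective]; simp
    have h2 : Finset.univ.image β = Finset.univ := by
      apply Finset.eq_univ_of_card
      rw [Finset.card_image_of_injective _ β.injective]; simp
    rw [h1, h2] at hap
    simp at hap

lemma pdet (α : Finset (Fin 5)) :
    (AR.submatrix (Subtype.val : α → Fin 5) (Subtype.val : α → Fin 5)).det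
      = (((if (4 : Fin 5) ∈ α then 20 else 20 ^ α.card : ℤ)) : ℝ) := by
  let f : Fin α.card ↪o Fin 5 := α.orderEmbOfFin rfl
  have h1 : (AR.submatrix (Subtype.val : α → Fin 5) (Subtype.val : α → Fin 5)).det
      = minor AR f f := by
    rw [← Matrix.det_submatrix_equiv_self (α.orderIsoOfFin rfl).toEquiv]
    rfl
  rw [h1]
  have hrange : ∀ a, a ∈ α ↔ ∃ i, f i = a := by
    intro a
    have := Finset.range_orderEmbOfFin α rfl
    constructor
    · intro ha
      have : a ∈ Set.range (α.orderEmbOfFin rfl) := by rw [this]; exact ha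
      exact this
    · rintro ⟨i, rfl⟩
      exact Finset.orderEmbOfFin_mem α rfl i
  by_cases h : (4 : Fin 5) ∈ α
  · rw [if_pos h, (minor_self f).2 ((hrange 4).1 h)]; norm_num
  · rw [if_neg h, (minor_self f).1 (fun i hi => h ((hrange 4).2 ⟨i, hi⟩))]; norm_num

lemma cc_AR (j : ℕ) : cc AR j
    = (((∑ α ∈ Finset.powersetCard j (Finset.univ : Finset (Fin 5)),
        (if (4 : Fin 5) ∈ α then 20 else 20 ^ α.card : ℤ)) : ℤ) : ℝ) / (Nat.choose 5 j : ℝ) := by
  unfold cc
  rw [Int.cast_sum]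
  congr 1
  exact Finset.sum_congr rfl fun α _ => pdet α

/-- Newton's inequalities fail for some GKK `τ`-matrix. -/
theorem result : ∃ (n : ℕ) (A : Matrix (Fin n) (Fin n) ℝ), IsGKK A ∧ IsTau A ∧
    ∃ j, 1 ≤ j ∧ j ≤ n - 1 ∧ cc A j ^ 2 < cc A (j - 1) * cc A (j + 1) := by
  refine ⟨5, AR, ⟨isP_AR, wss_AR⟩, isTau_AR, 2, by norm_num, by norm_num, ?_⟩
  rw [cc_AR, cc_AR, cc_AR]
  have h1 : (∑ α ∈ Finset.powersetCard (2 - 1) (Finset.univ : Finset (Fin 5)),
      (if (4 : Fin 5) ∈ α then 20 else 20 ^ α.card : ℤ)) = 100 := by decide +kernel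
  have h2 : (∑ α ∈ Finset.powersetCard 2 (Finset.univ : Finset (Fin 5)),
      (if (4 : Fin 5) ∈ α then 20 else 20 ^ α.card : ℤ)) = 2480 := by decide +kernel
  have h3 : (∑ α ∈ Finset.powersetCard (2 + 1) (Finset.univ : Finset (Fin 5)),
      (if (4 : Fin 5) ∈ α then 20 else 20 ^ α.card : ℤ)) = 32120 := by decide +kernel
  rw [h1, h2, h3]
  norm_num [Nat.choose]

end Pool.Agent.Results.MP_a5d893_al.NewtonFails
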